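import Pool.Agent.Q30.Lext.Three

/-!
# `ae_p(n) → ∞` as `p → 0`, for every `n ≥ 3`
-/

set_option autoImplicit false
open Filter Topology
open scoped ENNReal
open Pool.Agent.Q30.Lext

namespace Pool.Agent.Results.MP_4d6431_an.ConstantsBlowUp

noncomputable section

/-- `ae_p(n)`: the supremum of `ae_p(A)` over all nonempty metric spaces `A` with at most `n`
points. -/
def aeN (p : ℝ) (n : ℕ) : ℝ≥0∞ :=
  ⨆ (A : Type) (_ : MetricSpace A) (_ : Nonempty A ∧ Finite A ∧ Nat.card A ≤ n), aeC p A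

/-- `lim_{p → 0} ae_p(n) = ∞` for every `n ≥ 3`. -/
theorem result (n : ℕ) (hn : 3 ≤ n) : Tendsto (fun p : ℝ => aeN p n) (𝓝[>] 0) (𝓝 ⊤) := by
  have hc : Nat.card A3 = 3 := by
    rw [Nat.card_coe_set_eq]
    rw [Set.ncard_eq_toFinset_card', Set.toFinset_insert, Set.toFinset_insert, Set.toFinset_singleton,
      Finset.card_insert_of_notMem, Finset.card_insert_of_notMem, Finset.card_singleton]
    · simp
    · simp
  have hA : Nonempty A3 ∧ Finite A3 ∧ Nat.card A3 ≤ n :=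
    ⟨⟨⟨0, by simp⟩⟩, Nat.finite_of_card_ne_zero (by rw [hc]; norm_num), by rw [hc]; exact hn⟩
  have hle : ∀ p : ℝ, aeC p A3 ≤ aeN p n := fun p =>
    le_iSup_of_le A3 (le_iSup_of_le inferInstance (le_iSup_of_le hA le_rfl))
  exact tendsto_nhds_top_mono' tendsto_ae hle

end

end Pool.Agent.Results.MP_4d6431_an.ConstantsBlowUp
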