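import Pool.Agent.Q30.Lext.Upper

/-!
# `S(n, m) = m + 1` for `n ≥ 3`

`M` consists of the points `0, 1/(m+1), ..., m/(m+1), 1` and `2` of the real line and
`N = {0, 1, 2}`.
-/

set_option autoImplicit false
open Filter Topology
open scoped ENNReal
open Pool.Agent.Q30.Lext

namespace Pool.Agent.Results.MP_4d6431_an.SharpTrace

noncomputable section

/-- `S(n, m)`: the supremum of `lim_{p → 0} t_p(S, M)` over all metric spaces `M` and nonempty
subsets `S` with `|S| ≤ n` and `|M \ S| ≤ m` (the traces are non-increasing in `p`, so that the limit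
exists; it is written as a `liminf`). -/
def Sconst (n m : ℕ) : ℝ≥0∞ :=
  ⨆ (M : Type) (_ : MetricSpace M) (S : Set M)
    (_ : S.Nonempty ∧ S.Finite ∧ S.ncard ≤ n ∧ Sᶜ.Finite ∧ Sᶜ.ncard ≤ m),
    liminf (fun p : ℝ => pTrace p S) (𝓝[>] 0)

/-- the positions of the points: `k ↦ k / (m+1)` and the extra point at `2` -/
def pos (m : ℕ) : Option (Fin (m + 2)) → ℝ
  | none => 2
  | some k => k / ((m : ℝ) + 1)

lemma pos_le (m : ℕ) (k : Fin (m + 2)) : (k : ℝ) / ((m : ℝ) + 1) ≤ 1 := by
  rw [div_le_one (by positivity)]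
  have : (k : ℕ) ≤ m + 1 := Nat.lt_succ_iff.1 k.2
  exact_mod_cast this

lemma pos_inj (m : ℕ) : Function.Injective (pos m) := by
  have hm : (0 : ℝ) < (m : ℝ) + 1 := by positivity
  intro x y h
  cases x with
  | none =>
    cases y with
    | none => rfl
    | some l =>
      exfalso
      have h' : (2 : ℝ) = (l : ℝ) / ((m : ℝ) + 1) := h
      have := pos_le m l
      linarith
  | some k =>
    cases y with
    | none =>
      exfalso
      have h' : (k : ℝ) / ((m : ℝ) + 1) = 2 := h
      have := pos_le m k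
      linarith
    | some l =>
      have h' : (k : ℝ) / ((m : ℝ) + 1) = (l : ℝ) / ((m : ℝ) + 1) := h
      rw [div_left_inj' hm.ne'] at h'
      have : (k : ℕ) = l := by exact_mod_cast h'
      exact congrArg some (Fin.ext this)

/-- the metric space -/
def Sp (m : ℕ) : Type := Option (Fin (m + 2))

instance (m : ℕ) : MetricSpace (Sp m) := MetricSpace.induced (pos m) (pos_inj m) inferInstance

/-- the point at position `k / (m + 1)` -/
def pt (m k : ℕ) : Sp m := some ⟨min k (m + 1), by omega⟩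

/-- the point at position `2` -/
def far (m : ℕ) : Sp m := none

lemma dist_sp (m : ℕ) (x y : Sp m) : dist x y = |pos m x - pos m y| := rfl

lemma pos_pt (m k : ℕ) (hk : k ≤ m + 1) : pos m (pt m k) = k / ((m : ℝ) + 1) := by
  show ((min k (m + 1) : ℕ) : ℝ) / ((m : ℝ) + 1) = _
  rw [min_eq_left hk]

lemma pos_far (m : ℕ) : pos m (far m) = 2 := rfl

/-- the lower bound -/
lemma lower (n m : ℕ) (hn : 3 ≤ n) : (m : ℝ≥0∞) + 1 ≤ Sconst n m := by
  classical
  have hm : (0 : ℝ) < (m : ℝ) + 1 := by positivity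
  have p0 : pos m (pt m 0) = 0 := by rw [pos_pt m 0 (by omega)]; simp
  have p1 : pos m (pt m (m + 1)) = 1 := by
    rw [pos_pt m (m + 1) le_rfl]; push_cast; exact div_self hm.ne'
  set S : Set (Sp m) := {pt m 0, pt m (m + 1), far m} with hS
  have n01 : pt m 0 ≠ pt m (m + 1) := fun e => by
    have := congrArg (pos m) e; rw [p0, p1] at this; norm_num at this
  have n02 : pt m 0 ≠ far m := fun e => by
    have := congrArg (pos m) e; rw [p0, pos_far] at this; norm_num at this
  have n12 : pt m (m + 1) ≠ far m := fun e => by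
    have := congrArg (pos m) e; rw [p1, pos_far] at this; norm_num at this
  have hcard : S.ncard = 3 := by
    rw [hS, Set.ncard_insert_of_notMem, Set.ncard_insert_of_notMem, Set.ncard_singleton]
    · simpa using n12
    · simpa using ⟨n01, n02⟩
  have : Finite (Sp m) := inferInstanceAs (Finite (Option (Fin (m + 2))))
  have htot : Nat.card (Sp m) = m + 3 := by
    show Nat.card (Option (Fin (m + 2))) = m + 3
    rw [Nat.card_eq_fintype_card, Fintype.card_option, Fintype.card_fin]
  have hcompl : Sᶜ.ncard = m := by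
    have := Set.ncard_add_ncard_compl S
    rw [hcard, htot] at this
    omega
  have hSM : S.Nonempty ∧ S.Finite ∧ S.ncard ≤ n ∧ Sᶜ.Finite ∧ Sᶜ.ncard ≤ m :=
    ⟨⟨pt m 0, by simp [hS]⟩, Set.toFinite _, by rw [hcard]; exact hn, Set.toFinite _, hcompl.le⟩
  have hle : liminf (fun p : ℝ => pTrace p S) (𝓝[>] 0) ≤ Sconst n m :=
    le_iSup_of_le (Sp m) (le_iSup_of_le inferInstance (le_iSup_of_le S (le_iSup_of_le hSM le_rfl)))
  refine le_trans ?_ hle
  have hrange : ∀ x : Sp m, 0 ≤ pos m x ∧ pos m x ≤ 2 := by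
    intro x
    cases x with
    | none => exact ⟨by norm_num [pos], by norm_num [pos]⟩
    | some k =>
      have h1 : (0 : ℝ) ≤ (k : ℝ) / ((m : ℝ) + 1) := by positivity
      have h2 := pos_le m k
      exact ⟨h1, le_trans h2 (by norm_num)⟩
  have hdist : ∀ x y : Sp m, dist x y ≤ 2 := by
    intro x y
    rw [dist_sp, abs_le]
    have := hrange x
    have := hrange y
    constructor <;> linarith
  have key : ∀ δ : ℝ, 0 < δ → ENNReal.ofReal ((1 - δ) * (m + 1)) ≤
      liminf (fun p : ℝ => pTrace p S) (𝓝[>] 0) := by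
    intro δ hδ
    have h := trace_ge (M := Sp m) (a := pt m 0) (b := pt m (m + 1)) (c := far m)
      (by rw [dist_sp, p0, p1]; norm_num) (by rw [dist_sp, p0, pos_far]; norm_num)
      (by rw [dist_sp, p1, pos_far]; norm_num) (h := 1 / ((m : ℝ) + 1)) (D := 2)
      (by positivity) (m + 1) (fun k => pt m k) rfl rfl (by
        intro k hk
        rw [dist_sp, pos_pt m k (by omega), pos_pt m (k + 1) (by omega), abs_sub_comm]
        push_cast
        rw [show ((k : ℝ) + 1) / (m + 1) - k / (m + 1) = 1 / (m + 1) by ring,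
          abs_of_pos (by positivity)]) (fun k _ => ⟨hdist _ _, hdist _ _, hdist _ _⟩) hδ
    have e : (1 - δ) / (1 / ((m : ℝ) + 1)) = (1 - δ) * (m + 1) := by field_simp
    rw [e] at h
    exact le_liminf_of_le (by isBoundedDefault) h
  have hlim : Tendsto (fun δ : ℝ => ENNReal.ofReal ((1 - δ) * (m + 1))) (𝓝[>] 0)
      (𝓝 (ENNReal.ofReal ((1 - 0) * (m + 1)))) := by
    apply Tendsto.mono_left _ nhdsWithin_le_nhds
    apply ENNReal.tendsto_ofReal
    apply Continuous.tendsto
    fun_prop
  have hfin := le_of_tendsto hlim (by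
    filter_upwards [self_mem_nhdsWithin] with δ hδ
    exact key δ hδ)
  have e2 : ENNReal.ofReal ((1 - 0) * ((m : ℝ) + 1)) = (m : ℝ≥0∞) + 1 := by
    rw [sub_zero, one_mul, ENNReal.ofReal_add (by positivity) zero_le_one, ENNReal.ofReal_natCast,
      ENNReal.ofReal_one]
  rwa [e2] at hfin

/-- the upper bound (Basso) -/
lemma upper (n m : ℕ) : Sconst n m ≤ (m : ℝ≥0∞) + 1 := by
  refine iSup_le fun M => iSup_le fun _ => iSup_le fun S => iSup_le fun hS => ?_
  obtain ⟨h1, h2, -, h4, h5⟩ := hS
  exact liminf_le_of_le (by isBoundedDefault) fun b hb => by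
    obtain ⟨p, hp⟩ := hb.exists
    exact hp.trans (trace_le p S h1 h2 h4 h5)

/-- For all `n ≥ 3` and all `m`: `S(n, m) = m + 1`. -/
theorem result (n m : ℕ) (hn : 3 ≤ n) : Sconst n m = (m : ℝ≥0∞) + 1 :=
  le_antisymm (upper n m) (lower n m hn)

end

end Pool.Agent.Results.MP_4d6431_an.SharpTrace
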